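import Mathlib
import Pool.Agent.U656.NC.Neg

set_option autoImplicit false

/-!
# An inequality for all irreducible curves which are not `(-1)`-curves

Let `C` be an irreducible plane curve of degree `d` with the multiplicities `m_i` at very general
points, which is not a `(-1)`-curve. Let `T` be a set of at most eight points (if it has `1`, `2` or
`4` points, assume that the mean of the `m_i` on `T` is at most `d / 3`), and let `U_1, ..., U_r` be
disjoint sets of at least `144` of the other points, or one set of at least `36` of them. Then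

`(∑_T m_i) ^ 2 / |T| + ∑_j (∑_{U_j} m_i) ^ 2 / |U_j| ≤ d ^ 2`.

In particular `C ^ 2 ≥ 0` if the multiplicities are constant on `T` and on each of the sets `U_j`,
and zero at the other points.
-/

namespace Pool.Agent.Results.MP_d3e5c7_ag.AveragedMultiplicities

open Pool.Agent.TH167 Pool.Agent.R355.ConeAct Pool.Agent.TH207.NC Pool.Agent.U656.NC

theorem sq_div_const {n : ℕ} {V : Finset (Fin n)} {m : Fin n → ℕ}
    (h : ∀ i ∈ V, ∀ j ∈ V, m i = m j) :
    (∑ i ∈ V, (m i : ℝ)) ^ 2 / V.card = ∑ i ∈ V, (m i : ℝ) ^ 2 := by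
  rcases V.eq_empty_or_nonempty with he | ⟨a, ha⟩
  · rw [he]
    simp
  · have h1 : (0 : ℝ) < V.card := by
      have := Finset.card_pos.2 ⟨a, ha⟩
      exact_mod_cast this
    have h2 : ∑ i ∈ V, (m i : ℝ) = V.card * m a := by
      rw [Finset.sum_congr rfl fun i hi => by rw [h i hi a ha], Finset.sum_const, nsmul_eq_mul]
    have h3 : ∑ i ∈ V, (m i : ℝ) ^ 2 = V.card * (m a : ℝ) ^ 2 := by
      rw [Finset.sum_congr rfl fun i hi => by rw [h i hi a ha], Finset.sum_const, nsmul_eq_mul]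
    rw [h2, h3]
    field_simp

theorem result (n : ℕ) :
    ∃ f : ℕ → MvPolynomial (Fin n × Fin 2) ℂ, (∀ k, f k ≠ 0) ∧
      ∀ P : Fin n → Fin 2 → ℂ,
        (∀ k, MvPolynomial.eval (fun q : Fin n × Fin 2 => P q.1 q.2) (f k) ≠ 0) →
        ∀ (G : MvPolynomial (Fin 3) ℂ) (d : ℕ) (m : Fin n → ℕ), SHDefs.Curve P G d m →
          ¬ SHDefs.MinusOne P G d m →
          ∀ (T : Finset (Fin n)) (r : ℕ) (U : Fin r → Finset (Fin n)), 0 < r →
            T.card ≤ 8 → (T.card ∈ ({1, 2, 4} : Finset ℕ) → 3 * ∑ i ∈ T, m i ≤ T.card * d) →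
            (∀ j, Disjoint T (U j)) → (∀ j k, j ≠ k → Disjoint (U j) (U k)) →
            ((∀ j, 144 ≤ (U j).card) ∨ r = 1 ∧ ∀ j, 36 ≤ (U j).card) →
            -- the inequality
            (∑ i ∈ T, (m i : ℝ)) ^ 2 / T.card + ∑ j, (∑ i ∈ U j, (m i : ℝ)) ^ 2 / (U j).card ≤
              (d : ℝ) ^ 2 ∧
            -- the self-intersection number
            ((∀ i ∈ T, ∀ k ∈ T, m i = m k) → (∀ j, ∀ i ∈ U j, ∀ k ∈ U j, m i = m k) →
              (∀ i ∉ T, (∀ j, i ∉ U j) → m i = 0) → ∑ i, m i ^ 2 ≤ d ^ 2) := by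
  obtain ⟨f, hf, h⟩ := Pool.Agent.TH167.SH.exists_fam (Fin n × Fin 2)
  obtain ⟨g, hg, h'⟩ := fills n
  obtain ⟨F, hF, hF'⟩ := two_conds hf hg
  refine ⟨F, hF, fun P hP0 G d m hG hne T r U hr hT hT' hTU hU hcard => ?_⟩
  have hP := (h _).1 (hF' _ hP0).1
  have hFills := h' P (hF' _ hP0).2
  have hmain := not_minusOne_le hP hFills hG hne hr hT hT' hTU hU hcard
  refine ⟨hmain, fun h1 h2 h3 => ?_⟩
  rw [sq_div_const h1, Finset.sum_congr rfl fun j _ => sq_div_const (h2 j)] at hmain
  have h4 : ∑ i, (m i : ℝ) ^ 2 = ∑ i ∈ T, (m i : ℝ) ^ 2 + ∑ j, ∑ i ∈ U j, (m i : ℝ) ^ 2 := by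
    have h5 : ∀ i, (m i : ℝ) ^ 2 = (if i ∈ T then (m i : ℝ) ^ 2 else 0) +
        ∑ j, (if i ∈ U j then (m i : ℝ) ^ 2 else 0) := by
      intro i
      by_cases h6 : i ∈ T
      · rw [if_pos h6, Finset.sum_eq_zero, add_zero]
        intro j _
        rw [if_neg fun h7 => Finset.disjoint_left.1 (hTU j) h6 h7]
      · by_cases h7 : ∃ j, i ∈ U j
        · obtain ⟨j, hj⟩ := h7
          rw [if_neg h6, zero_add, Finset.sum_eq_single j, if_pos hj]
          · intro k _ hk
            rw [if_neg fun h8 => Finset.disjoint_left.1 (hU k j hk) h8 hj]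
          · intro h8
            exact absurd (Finset.mem_univ j) h8
        · push Not at h7
          rw [h3 i h6 h7, if_neg h6, zero_add, Finset.sum_eq_zero]
          · norm_num
          · intro j _
            rw [if_neg (h7 j)]
    rw [Finset.sum_congr rfl fun i _ => h5 i, Finset.sum_add_distrib, Finset.sum_comm,
      Finset.sum_ite_mem, Finset.univ_inter]
    congr 1
    exact Finset.sum_congr rfl fun j _ => by rw [Finset.sum_ite_mem, Finset.univ_inter]
  rw [← h4] at hmain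
  exact_mod_cast hmain

end Pool.Agent.Results.MP_d3e5c7_ag.AveragedMultiplicities
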