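import Mathlib
import Pool.Agent.U656.NC.Neg2

set_option autoImplicit false

/-!
# Curves with dominated rare multiplicities are not negative

Let `C` be an irreducible plane curve of degree `d` with the multiplicities `m_i` at very general
points, which is not a `(-1)`-curve. Let `T` be a set of `0`, `3`, `5`, `6`, `7` or `8` points, or a
set of points such that the mean of the `m_i` on `T` is at most `d / 3`, their sum is at most `3 d`
and `(∑_T m_i) ^ 2 / |T| ≤ 8 d ^ 2 / 9`. Let `U_1, ..., U_r` be disjoint sets of other points, of any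
size. Suppose that the means of the `m_i` on the sets `U_j`
are such that the rare ones, those which do not belong to at least `144` points, are dominated by the
smaller ones. Then

`(∑_T m_i) ^ 2 / |T| + ∑_j (∑_{U_j} m_i) ^ 2 / |U_j| ≤ d ^ 2`.

In particular `C ^ 2 ≥ 0` if the multiplicities are constant on `T` and the rare ones at the other
points are dominated by the smaller ones.
-/

namespace Pool.Agent.Results.MP_d3e5c7_ag.DominatedMultiplicities

open Pool.Agent.TH167 Pool.Agent.R355.ConeAct Pool.Agent.TH207.NC Pool.Agent.U656.NC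

theorem result (n : ℕ) :
    ∃ f : ℕ → MvPolynomial (Fin n × Fin 2) ℂ, (∀ k, f k ≠ 0) ∧
      ∀ P : Fin n → Fin 2 → ℂ,
        (∀ k, MvPolynomial.eval (fun q : Fin n × Fin 2 => P q.1 q.2) (f k) ≠ 0) →
        ∀ (G : MvPolynomial (Fin 3) ℂ) (d : ℕ) (m : Fin n → ℕ), SHDefs.Curve P G d m →
          ¬ SHDefs.MinusOne P G d m →
          ∀ T : Finset (Fin n), T.card + 36 ≤ n →
            (T.card ∈ ({0, 3, 5, 6, 7, 8} : Finset ℕ) ∨ (3 * ∑ i ∈ T, m i ≤ T.card * d ∧
              ∑ i ∈ T, m i ≤ 3 * d ∧ 9 * (∑ i ∈ T, m i) ^ 2 ≤ 8 * (T.card * d ^ 2))) →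
            -- the inequality
            (∀ (r : ℕ) (U : Fin r → Finset (Fin n)) (R : Set ℝ) (s : ℝ → ℝ),
              (∀ j, Disjoint T (U j)) → (∀ j k, j ≠ k → Disjoint (U j) (U k)) →
              Tame (fun i : {i // i ∉ T} =>
                ∑ j, (if i.1 ∈ U j then (∑ l ∈ U j, (m l : ℝ)) / (U j).card else 0)) R s →
              (∑ i ∈ T, (m i : ℝ)) ^ 2 / T.card + ∑ j, (∑ i ∈ U j, (m i : ℝ)) ^ 2 / (U j).card ≤
                (d : ℝ) ^ 2) ∧
            -- the self-intersection number
            ∀ (R : Set ℝ) (s : ℝ → ℝ), (∀ i ∈ T, ∀ k ∈ T, m i = m k) →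
              Tame (fun i : {i // i ∉ T} => (m i.1 : ℝ)) R s → ∑ i, m i ^ 2 ≤ d ^ 2 := by
  obtain ⟨f, hf, h⟩ := Pool.Agent.TH167.SH.exists_fam (Fin n × Fin 2)
  obtain ⟨g, hg, h'⟩ := fills n
  obtain ⟨F, hF, hF'⟩ := two_conds hf hg
  refine ⟨F, hF, fun P hP0 G d m hG hne T hn hT => ?_⟩
  have hP := (h _).1 (hF' _ hP0).1
  have hFills := h' P (hF' _ hP0).2
  exact ⟨fun r U R s hTU hU htame => tame_le hP hFills hG hne hn hT hTU hU htame,
    fun R s hconst htame => tame_sq hP hFills hG hne hn hT hconst htame⟩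

end Pool.Agent.Results.MP_d3e5c7_ag.DominatedMultiplicities
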