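import Mathlib
import Pool.Agent.U656.NC.Transfer
import Pool.Agent.U656.NC.Mostly

set_option autoImplicit false

/-!
# Large multiplicities carry a positive proportion of a negative curve

Let `C` be an irreducible plane curve of degree `d` with the multiplicities `m_i` at very general
points, `d ^ 2 < ∑ m_i ^ 2`. For every `M ≥ 1` the sum of the squares of the multiplicities
`m_i ≤ M` is less than `384 (M ^ 3 + ∑ v ^ 2)`, the sum over the DISTINCT numbers `v > M` which are
multiplicities of less than `96` of the points. Consequently the sum of the squares of the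
multiplicities `m_i > M` exceeds `d ^ 2 / 770` whenever `768 M ^ 3 ≤ d ^ 2`. This is deduced from a
theorem on nef classes with real coefficients.
-/

namespace Pool.Agent.Results.MP_d3e5c7_ag.LargeMultiplicities

open Pool.Agent.TH167 Pool.Agent.R355.ConeAct Pool.Agent.TH207.NC Pool.Agent.U656.NC

/-- the inequality for the curves -/
theorem curve_le {n : ℕ} {P : Fin n → Fin 2 → ℂ} (hP : Fills P) {x : Fin n → ℝ}
    (hx : ∀ i, 0 ≤ x i) {M c : ℝ} (hM : 0 < M) (hc : 0 ≤ c) (hxc : ∑ i, x i ^ 2 = c ^ 2)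
    (hyp : ∑ w ∈ (values x).filter (Rare x M), 384 * max w M ^ 2 ≤
      ∑ i ∈ Finset.univ.filter (fun i => x i ≤ M), x i ^ 2)
    {G : MvPolynomial (Fin 3) ℂ} {d : ℕ} {w : Fin n → ℕ} (hG : SHDefs.Curve P G d w) :
    ∑ j, x j * (w j : ℝ) ≤ c * d := by
  by_cases hne : ∃ i, x i ≠ 0
  · have h1 := hP {i // x i ≠ 0} Subtype.val Subtype.val_injective (fun i => x i.1) c (by
      have h2 := mostly x hx hM hyp hne
      rwa [hxc, Real.sqrt_sq hc] at h2) G d w hG
    have h3 : ∑ i : {i // x i ≠ 0}, x i.1 * (w i.1 : ℝ) = ∑ j, x j * (w j : ℝ) := by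
      refine Fintype.sum_of_injective (Subtype.val : {i // x i ≠ 0} → Fin n)
        Subtype.val_injective _ _ (fun j hj => ?_) fun i => rfl
      have h4 : x j = 0 := by
        by_contra h
        exact hj ⟨⟨j, h⟩, rfl⟩
      rw [h4, zero_mul]
    rwa [h3] at h1
  · push Not at hne
    have h3 : ∑ j, x j * (w j : ℝ) = 0 := Finset.sum_eq_zero fun j _ => by rw [hne, zero_mul]
    rw [h3]
    positivity

/-- the hypothesis for integers -/
theorem rare_sum {n : ℕ} (w : Fin n → ℕ) (M : ℕ) :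
    ∑ v ∈ (values fun i => (w i : ℝ)).filter (Rare (fun i => (w i : ℝ)) M),
      384 * max v (M : ℝ) ^ 2 ≤
    384 * ((M : ℝ) ^ 3 + ∑ v ∈ (Finset.univ.image w).filter
      (fun v => M < v ∧ (Finset.univ.filter fun i => w i = v).card < 96), (v : ℝ) ^ 2) := by
  classical
  obtain ⟨U, hU⟩ : ∃ U, U = (Finset.univ.image w).filter
      (fun v => M < v ∧ (Finset.univ.filter fun i => w i = v).card < 96) := ⟨_, rfl⟩
  rw [← hU]
  have hsub : (values fun i => (w i : ℝ)).filter (Rare (fun i => (w i : ℝ)) M) ⊆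
      (Finset.Icc 1 M ∪ U).image (fun k : ℕ => (k : ℝ)) := by
    intro v hv
    rw [Finset.mem_filter, mem_values] at hv
    obtain ⟨⟨h0, i, hi⟩, hr⟩ := hv
    rw [Finset.mem_image]
    refine ⟨w i, ?_, hi⟩
    rw [Finset.mem_union, Finset.mem_Icc]
    rcases le_or_gt (w i) M with h | h
    · left
      refine ⟨?_, h⟩
      rw [Nat.one_le_iff_ne_zero]
      intro h2
      apply h0
      rw [← hi, h2, Nat.cast_zero]
    · right
      rw [hU, Finset.mem_filter]
      refine ⟨Finset.mem_image_of_mem _ (Finset.mem_univ i), h, ?_⟩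
      unfold Rare mult at hr
      have h3 : (M : ℝ) < v := by
        rw [← hi]
        exact_mod_cast h
      rw [max_eq_left h3.le] at hr
      have hv2 : 0 < v ^ 2 := by positivity
      have h4 := lt_of_mul_lt_mul_right hr hv2.le
      have h5 : (Finset.univ.filter fun j => (w j : ℝ) = v) =
          Finset.univ.filter fun j => w j = w i := by
        ext j
        rw [Finset.mem_filter, Finset.mem_filter, ← hi, Nat.cast_inj]
      rw [h5] at h4
      exact_mod_cast h4
  refine (Finset.sum_le_sum_of_subset_of_nonneg hsub fun v _ _ => by positivity).trans ?_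
  rw [Finset.sum_image (fun a _ b _ h => Nat.cast_injective h)]
  have hdisj : Disjoint (Finset.Icc 1 M) U := by
    rw [Finset.disjoint_left]
    intro a ha ha'
    rw [hU, Finset.mem_filter] at ha'
    have := (Finset.mem_Icc.1 ha).2
    omega
  rw [Finset.sum_union hdisj, mul_add]
  refine add_le_add (le_of_eq ?_) (le_of_eq ?_)
  · have h1 : ∀ k ∈ Finset.Icc 1 M, 384 * max (k : ℝ) (M : ℝ) ^ 2 = 384 * (M : ℝ) ^ 2 := by
      intro k hk
      have h2 : (k : ℝ) ≤ M := by exact_mod_cast (Finset.mem_Icc.1 hk).2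
      rw [max_eq_right h2]
    rw [Finset.sum_congr rfl h1, Finset.sum_const, Nat.card_Icc, nsmul_eq_mul,
      Nat.add_sub_cancel]
    ring
  · rw [Finset.mul_sum]
    refine Finset.sum_congr rfl fun k hk => ?_
    rw [hU, Finset.mem_filter] at hk
    have h2 : (M : ℝ) ≤ k := by exact_mod_cast hk.2.1.le
    rw [max_eq_left h2]

theorem result (n : ℕ) :
    ∃ f : ℕ → MvPolynomial (Fin n × Fin 2) ℂ, (∀ k, f k ≠ 0) ∧
      ∀ P : Fin n → Fin 2 → ℂ,
        (∀ k, MvPolynomial.eval (fun q : Fin n × Fin 2 => P q.1 q.2) (f k) ≠ 0) →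
        -- nef classes with real coefficients
        (∀ (x : Fin n → ℝ) (c M : ℝ), (∀ i, 0 ≤ x i) → 0 < M → 0 ≤ c → ∑ i, x i ^ 2 = c ^ 2 →
          ∑ w ∈ (values x).filter (Rare x M), 384 * max w M ^ 2 ≤
            ∑ i ∈ Finset.univ.filter (fun i => x i ≤ M), x i ^ 2 →
          ∀ z ∈ curvCone P, ∑ i, x i * z.2 i ≤ c * z.1) ∧
        -- negative curves
        ∀ (G : MvPolynomial (Fin 3) ℂ) (d : ℕ) (m : Fin n → ℕ), SHDefs.Curve P G d m →
          d ^ 2 < ∑ i, m i ^ 2 →
          (∀ M : ℕ, 1 ≤ M → ∑ i ∈ Finset.univ.filter (fun i => m i ≤ M), m i ^ 2 <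
            384 * (M ^ 3 + ∑ v ∈ (Finset.univ.image m).filter
              (fun v => M < v ∧ (Finset.univ.filter fun i => m i = v).card < 96), v ^ 2)) ∧
          ∀ M : ℕ, 768 * M ^ 3 ≤ d ^ 2 →
            d ^ 2 < 770 * ∑ i ∈ Finset.univ.filter (fun i => M < m i), m i ^ 2 := by
  classical
  obtain ⟨f, hf, h'⟩ := fills n
  refine ⟨f, hf, fun P hP0 => ?_⟩
  have hFills := h' P hP0
  refine ⟨fun x c M hx hM hc hxc hyp z hz => ?_, fun G d m hG hd => ?_⟩
  · have h1 := nef_anti (P := P) (D := (c, x)) (D' := (c, x)) rfl hx (fun _ => le_rfl)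
      (fun G d w hG => curve_le hFills hx hM hc hxc hyp hG) z hz
    unfold dot at h1
    simp only at h1
    linarith
  have hmain : ∀ M : ℕ, 1 ≤ M → ∑ i ∈ Finset.univ.filter (fun i => m i ≤ M), m i ^ 2 <
      384 * (M ^ 3 + ∑ v ∈ (Finset.univ.image m).filter
        (fun v => M < v ∧ (Finset.univ.filter fun i => m i = v).card < 96), v ^ 2) := by
    intro M hM
    by_contra hcon
    push Not at hcon
    obtain ⟨c, hc⟩ : ∃ c : ℝ, c = √(∑ i, (m i : ℝ) ^ 2) := ⟨_, rfl⟩
    have hS0 : (0 : ℝ) ≤ ∑ i, (m i : ℝ) ^ 2 := Finset.sum_nonneg fun i _ => sq_nonneg _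
    have hc2 : ∑ i, (m i : ℝ) ^ 2 = c ^ 2 := by rw [hc]; exact (Real.sq_sqrt hS0).symm
    have hc0 : 0 ≤ c := by rw [hc]; exact Real.sqrt_nonneg _
    have hcon' : 384 * ((M : ℝ) ^ 3 + ∑ v ∈ (Finset.univ.image m).filter
        (fun v => M < v ∧ (Finset.univ.filter fun i => m i = v).card < 96), (v : ℝ) ^ 2) ≤
        ∑ i ∈ Finset.univ.filter (fun i => (m i : ℝ) ≤ (M : ℝ)), (m i : ℝ) ^ 2 := by
      simp only [Nat.cast_le]
      exact_mod_cast hcon
    have h1 := curve_le hFills (x := fun i => (m i : ℝ)) (fun i => Nat.cast_nonneg _)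
      (M := M) (by exact_mod_cast hM) hc0 hc2 ((rare_sum m M).trans hcon') hG
    have h2 : ∑ j, (m j : ℝ) * (m j : ℝ) = c ^ 2 := by
      rw [← hc2]
      exact Finset.sum_congr rfl fun j _ => by ring
    rw [h2] at h1
    have h3 : (d : ℝ) ^ 2 < c ^ 2 := by
      rw [← hc2]
      exact_mod_cast hd
    have hd0 : (0 : ℝ) ≤ d := Nat.cast_nonneg d
    nlinarith
  refine ⟨hmain, fun M hM => ?_⟩
  obtain ⟨S, hS⟩ : ∃ S, S = ∑ i ∈ Finset.univ.filter (fun i => M < m i), m i ^ 2 := ⟨_, rfl⟩
  have hsplit : ∑ i ∈ Finset.univ.filter (fun i => m i ≤ M), m i ^ 2 + S = ∑ i, m i ^ 2 := by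
    rw [hS, ← Finset.sum_filter_add_sum_filter_not Finset.univ (fun i => m i ≤ M)]
    congr 2
    ext i
    simp
  rw [← hS]
  rcases Nat.eq_zero_or_pos M with h0 | h0
  · have h1 : ∑ i ∈ Finset.univ.filter (fun i => m i ≤ M), m i ^ 2 = 0 := by
      refine Finset.sum_eq_zero fun i hi => ?_
      have h2 := (Finset.mem_filter.1 hi).2
      have h3 : m i = 0 := by omega
      rw [h3]
      norm_num
    omega
  · have h1 := hmain M h0
    have h2 : ∑ v ∈ (Finset.univ.image m).filter
        (fun v => M < v ∧ (Finset.univ.filter fun i => m i = v).card < 96), v ^ 2 ≤ S := by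
      rw [hS]
      have h3 : ∀ v ∈ (Finset.univ.image m).filter
          (fun v => M < v ∧ (Finset.univ.filter fun i => m i = v).card < 96),
          v ^ 2 ≤ ∑ i ∈ (Finset.univ.filter (fun i => M < m i)).filter (fun i => m i = v),
            m i ^ 2 := by
        intro v hv
        rw [Finset.mem_filter, Finset.mem_image] at hv
        obtain ⟨⟨i, _, hi⟩, hv2, _⟩ := hv
        have h4 : i ∈ (Finset.univ.filter (fun i => M < m i)).filter (fun i => m i = v) := by
          rw [Finset.mem_filter, Finset.mem_filter]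
          exact ⟨⟨Finset.mem_univ i, by rw [hi]; exact hv2⟩, hi⟩
        have h5 := Finset.single_le_sum (f := fun i => m i ^ 2) (fun j _ => Nat.zero_le _) h4
        rwa [hi] at h5
      refine (Finset.sum_le_sum h3).trans ?_
      refine Finset.sum_fiberwise_le_sum_of_sum_fiber_nonneg (t := (Finset.univ.image m).filter
        (fun v => M < v ∧ (Finset.univ.filter fun i => m i = v).card < 96)) (g := m)
        fun v _ => Nat.zero_le _
    omega

end Pool.Agent.Results.MP_d3e5c7_ag.LargeMultiplicities
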