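import Mathlib
import Pool.Agent.U390.DY.Neg
import Pool.Agent.TH167.SH.Fam

set_option autoImplicit false

/-!
# Negative curves above multi-scale vectors, somewhere in the Weyl group orbit

Let `P 1, …, P s` be very general points of the complex projective plane and `C` an irreducible plane
curve of degree `d` with multiplicities `w i` at the points, whose strict transform is not a
`(-1)`-curve. All classes in the orbit of its class under the quadratic transformations are of the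
form `d' H - ∑ w' i E i` with `d', w' i ≥ 0`, and for every multi-scale vector `v ≤ w'`

`C ^ 2 ≥ ∑ v i - 3 d' - (∑ w' i ^ 2 - ∑ v i ^ 2)`, and
`C ^ 2 ≥ (∑ v i) / 2 - (∑ w' i ^ 2 - ∑ v i ^ 2)` if `36 v i + 18 ≤ ∑ v` for all `i`.

Hence `C ^ 2 < 0` is impossible if `36 v i + 18 ≤ ∑ v` for all `i` and the sum of the squares of the
`w' i` exceeds that of the `v i` by at most `(∑ v i) / 2`.

The multi-scale lists of multiplicities (`Pool.Agent.U390.DY.Multi`) are obtained from start lists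
(`Pool.Agent.U390.DY.Start`: nearly equal numbers with a tail, or at least `37` equal numbers) by
* adding numbers `0` and `1`;
* splitting: a number `b ≥ 1` is replaced by the four numbers `⌊(2 b + j) / 4⌋`, `j = -1, 0, 1, 2`,
  of about half its size;
* doubling: if `s + a {b}` and `s + a {b + 1}` are multi-scale lists then so is
  `s + 2 a {⌊b / 2⌋} + 2 a {⌊(b + 1) / 2⌋}`, if the sum of its `x (x + 1)` is at most
  `(a ⌊(b + 1) / 2⌋) ^ 2`.

So multiplicities of about `M, M / 2, M / 4, …` occur together, in any proportion.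
-/

namespace Pool.Agent.Results.MP_d3e5c7_ag.MultiScalePart

open MvPolynomial Pool.Agent.TH167 Pool.Agent.TH167.SHDefs Pool.Agent.Y939.NC
open Pool.Agent.U390.DY (Multi)

/-- The reflection of the class `a = (d; w)`, `d H - ∑ w l E l`, in the class
`H - E (i 0) - E (i 1) - E (i 2)`: with `δ = d - w (i 0) - w (i 1) - w (i 2)`, the numbers
`d`, `w (i 0)`, `w (i 1)`, `w (i 2)` are increased by `δ`. -/
def reflect {s : ℕ} (i : Fin 3 → Fin s) (a : ℤ × (Fin s → ℤ)) : ℤ × (Fin s → ℤ) :=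
  (a.1 + (a.1 - a.2 (i 0) - a.2 (i 1) - a.2 (i 2)),
    fun l => a.2 l + if l = i 0 ∨ l = i 1 ∨ l = i 2 then a.1 - a.2 (i 0) - a.2 (i 1) - a.2 (i 2)
      else 0)

/-- Finitely many reflections carry the class `a` to `b`. -/
def Carries {s : ℕ} (a b : ℤ × (Fin s → ℤ)) : Prop :=
  Relation.ReflTransGen
    (fun a b : ℤ × (Fin s → ℤ) => ∃ i : Fin 3 → Fin s, Function.Injective i ∧ b = reflect i a) a b

theorem result (s : ℕ) :
    ∃ Z : ℕ → MvPolynomial (Fin s × Fin 2) ℂ, (∀ n, Z n ≠ 0) ∧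
      ∀ P : Fin s → Fin 2 → ℂ,
        (∀ n, MvPolynomial.eval (fun ij : Fin s × Fin 2 => P ij.1 ij.2) (Z n) ≠ 0) →
        ∀ (d : ℕ) (w : Fin s → ℕ) (C : MvPolynomial (Fin 3) ℂ),
          Curve P C d w → ¬ MinusOne P C d w →
          ∀ b : ℤ × (Fin s → ℤ), Carries ((d : ℤ), fun l => (w l : ℤ)) b →
            ∃ (d' : ℕ) (w' : Fin s → ℕ), b = ((d' : ℤ), fun l => (w' l : ℤ)) ∧
              ∀ v : Fin s → ℕ, Multi (Finset.univ.val.map v) → (∀ i, v i ≤ w' i) →
                ∑ i, (v i : ℝ) - 3 * d' - (∑ i, (w' i : ℝ) ^ 2 - ∑ i, (v i : ℝ) ^ 2) ≤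
                  (inter d w d w : ℝ) ∧
                ((∀ i, 36 * v i + 18 ≤ ∑ j, v j) →
                  (∑ i, (v i : ℝ)) / 2 - (∑ i, (w' i : ℝ) ^ 2 - ∑ i, (v i : ℝ) ^ 2) ≤
                    (inter d w d w : ℝ)) := by
  obtain ⟨Z, hZ, h⟩ := SH.exists_fam (Fin s × Fin 2)
  refine ⟨Z, hZ, fun P hP0 d w C hC hne b hb => ?_⟩
  have hP := (h _).1 hP0
  obtain ⟨h1, h2, h3⟩ := SH.curve_iff.1 hC
  have hne' : ¬ (SH.ip d w d w = -1 ∧ SH.kk d w = 1) := fun h0 =>
    hne ⟨hC, by rw [SH.inter_eq, h0.1], by rw [SH.interK_eq, h0.2]⟩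
  have hb' : Pool.Agent.TH442.NF.Ch (Pool.Agent.TH442.NF.cls d w) b := hb
  obtain ⟨d', w', rfl, hpos, hip, -⟩ := orbit_eff hP h1 h2 h3 hne' hb'
  refine ⟨d', w', rfl, fun v hv hle => ?_⟩
  have hb := Pool.Agent.U390.DY.multi_bound hP hv hle hpos
  obtain ⟨c1, c2⟩ := num_bound hb
  have hI : (inter d w d w : ℝ) = (d' : ℝ) ^ 2 - ∑ i, (w' i : ℝ) ^ 2 := by
    rw [SH.inter_eq, ← hip]
    unfold SH.ip
    push_cast
    rw [pow_two]
    congr 1
    exact Finset.sum_congr rfl fun i _ => by ring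
  rw [hI]
  refine ⟨by linarith, fun h36 => ?_⟩
  have := c2 h36
  linarith

end Pool.Agent.Results.MP_d3e5c7_ag.MultiScalePart
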